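import Pool.Agent.helper38.VA.Spec

set_option autoImplicit false

namespace Pool.Agent.VA

open Matrix Module Pool.Agent.PR Pool.Agent.H48SL

theorem CPN_den (c : ℚ) (s : ℤ) (hs : s ≠ 0) (h : ∀ n : ℕ, ∃ z : ℤ, (s : ℚ) * c ^ n = z) :
    c.den = 1 := by
  by_contra hne
  have h2 : 2 ≤ c.den := by
    have := c.pos
    omega
  obtain ⟨z, hz⟩ := h s.natAbs
  have hd : ((c.den : ℚ)) ^ s.natAbs ≠ 0 := pow_ne_zero _ (by exact_mod_cast c.den_nz)
  rw [← Rat.num_div_den c, div_pow, mul_div_assoc', div_eq_iff hd] at hz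
  have h4 : s * c.num ^ s.natAbs = z * (c.den : ℤ) ^ s.natAbs := by exact_mod_cast hz
  have h5 : (c.den : ℤ) ^ s.natAbs ∣ s * c.num ^ s.natAbs := ⟨z, by rw [h4]; ring⟩
  have h6 : IsCoprime ((c.den : ℤ) ^ s.natAbs) (c.num ^ s.natAbs) := by
    refine IsCoprime.pow ?_
    rw [isCoprime_comm, Int.isCoprime_iff_gcd_eq_one]
    have := c.reduced
    rw [Int.gcd_eq_natAbs]
    simpa using this
  have h7 := h6.dvd_of_dvd_mul_right h5
  have h8 := Int.natAbs_dvd_natAbs.2 h7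
  rw [Int.natAbs_pow, Int.natAbs_natCast] at h8
  have h9 := Nat.le_of_dvd (Int.natAbs_pos.2 hs) h8
  have h10 : 2 ^ s.natAbs ≤ c.den ^ s.natAbs := Nat.pow_le_pow_left h2 _
  have h11 : s.natAbs < 2 ^ s.natAbs := Nat.lt_two_pow_self
  omega

theorem CPN : CPN_stmt := by
  intro c q m hc hq hm h
  obtain ⟨s, hs⟩ := h 0
  rw [zpow_zero, one_mul] at hs
  have hs0 : s ≠ 0 := by
    rintro rfl
    rw [Int.cast_zero] at hs
    have hm' : (m : ℚ) ≠ 0 := by exact_mod_cast hm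
    exact (mul_ne_zero hm' hq) hs
  have h1 : c.den = 1 := by
    refine CPN_den c s hs0 fun n => ?_
    obtain ⟨z, hz⟩ := h n
    refine ⟨z, ?_⟩
    rw [← hz, ← hs, zpow_natCast]
    ring
  have h2 : (c⁻¹).den = 1 := by
    refine CPN_den c⁻¹ s hs0 fun n => ?_
    obtain ⟨z, hz⟩ := h (-n)
    refine ⟨z, ?_⟩
    rw [← hz, ← hs, _root_.zpow_neg, zpow_natCast, inv_pow]
    ring
  have h3 : ((c.num : ℤ) : ℚ) = c := Rat.coe_int_num_of_den_eq_one h1
  have h4 : (((c⁻¹).num : ℤ) : ℚ) = c⁻¹ := Rat.coe_int_num_of_den_eq_one h2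
  have h5 : c.num * (c⁻¹).num = 1 := by
    have : ((c.num * (c⁻¹).num : ℤ) : ℚ) = 1 := by
      push_cast
      rw [h3, h4, mul_inv_cancel₀ hc]
    exact_mod_cast this
  rcases Int.eq_one_or_neg_one_of_mul_eq_one h5 with h | h
  · left
    rw [← h3, h]
    norm_num
  · right
    rw [← h3, h]
    norm_num

end Pool.Agent.VA
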